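import Pool.Agent.H89.Dev.Torus

/-!
# Finitely many generators, uniformly in the data
-/

set_option autoImplicit false

open CategoryTheory AlgebraicGeometry Pool.Agent.Y116.UV Pool.Agent.H89.Dev Pool.Agent.Z125.UN
  Pool.Agent.W5h38.TV Pool.Agent.W5h68.SP

universe u

namespace Pool.Agent.H39

section

variable {k : Type} [Field k] {Θ : Type u} (Z : Θ → Sch k → Prop) (R : Sch k → Prop)

/-- There are finitely many schemes with the property `R` such that for all data `θ` the property `Z θ` of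
these schemes implies the property `Z θ` of `X`. -/
def FinGen (X : Sch k) : Prop :=
  ∃ L : List (Sch k), (∀ Y ∈ L, R Y) ∧ ∀ θ, (∀ Y ∈ L, Z θ Y) → Z θ X

variable {Z R}

lemma FinGen.one {X Y : Sch k} (h : ∀ θ, Z θ X → Z θ Y) (hX : FinGen Z R X) : FinGen Z R Y := by
  obtain ⟨L, h1, h2⟩ := hX
  exact ⟨L, h1, fun θ h3 => h θ (h2 θ h3)⟩

lemma FinGen.two {X Y W : Sch k} (h : ∀ θ, Z θ X → Z θ Y → Z θ W) (hX : FinGen Z R X)
    (hY : FinGen Z R Y) : FinGen Z R W := by
  obtain ⟨L, h1, h2⟩ := hX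
  obtain ⟨M, h3, h4⟩ := hY
  refine ⟨L ++ M, fun Y hY => ?_, fun θ h5 => h θ
    (h2 θ fun Y hY => h5 Y (List.mem_append_left _ hY))
    (h4 θ fun Y hY => h5 Y (List.mem_append_right _ hY))⟩
  rcases List.mem_append.mp hY with h | h
  · exact h1 Y h
  · exact h3 Y h

lemma FinGen.zero {X : Sch k} (h : ∀ θ, Z θ X) : FinGen Z R X :=
  ⟨[], fun _ h => absurd h List.not_mem_nil, fun θ _ => h θ⟩

lemma FinGen.gen {X : Sch k} (h : R X) : FinGen Z R X :=
  ⟨[X], fun Y hY => by rw [List.mem_singleton.mp hY]; exact h,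
    fun _ h => h X (List.mem_singleton_self X)⟩

theorem bnd_finGen (hZ : ∀ θ, Bnd True (Z θ)) : Bnd True (FinGen Z R) where
  iso hX e := FinGen.one fun θ => (hZ θ).iso hX e
  total i j hX ht := FinGen.two fun θ => (hZ θ).total i j hX ht
  opened i j hX ht := FinGen.two fun θ => (hZ θ).opened i j hX ht
  closed i j hX ht := FinGen.two fun θ => (hZ θ).closed i j hX ht
  space m := FinGen.zero fun θ => (hZ θ).space m
  jouanolou A _ _ _ m f U j hj hr := FinGen.one fun θ => (hZ θ).jouanolou A m f U j hj hr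
  torus A _ _ _ := FinGen.one fun θ => (hZ θ).torus A
  bundle A _ _ _ m f U j hj hr := FinGen.one fun θ => (hZ θ).bundle A m f U j hj hr

end

/-- **Torus schemes of complexity at most `n`: finitely many varieties of dimension at most `n`,
uniformly in the data.** -/
theorem finGen_built {k : Type} [Field k] [PerfectField k] {Θ : Type u} {Z : Θ → Sch k → Prop}
    (hZ : ∀ θ, Bnd True (Z θ)) {Q : Sch k → Prop} (hQ : IsClass Q) {n : ℕ} (hM : ModelsIn Q n)
    (X : Sch k) (hX : Built n X) :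
    ∃ L : List (Sch k), (∀ Y ∈ L, Q Y ∧ topologicalKrullDim Y.left ≤ n) ∧
      ∀ θ, (∀ Y ∈ L, Z θ Y) → Z θ X :=
  built_of_class (bnd_finGen (R := fun Y => Q Y ∧ topologicalKrullDim Y.left ≤ n) hZ) hQ hM
    (fun Y hY hn => FinGen.gen ⟨hY, hn⟩) X hX

end Pool.Agent.H39
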